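import Mathlib
import Pool.Agent.H393R2.Geom3

/-!
# Transference: no small dual vector implies that the forms take values near every point
-/

set_option autoImplicit false

open Finset Module

namespace Pool.Agent.D0H88.GL

open Pool.Agent.H393R2 Pool.Agent.H393R2.Geom

/-- the constant of the duality -/
noncomputable def cst (n : ℕ) : ℝ := (n.factorial : ℝ) * (2 * KK n) ^ n

lemma cst_pos {n : ℕ} (hn : 0 < n) : 0 < cst n := by
  have := one_le_KK hn
  unfold cst
  positivity

theorem trans {n : ℕ} (hn : 0 < n) (L Ls : Matrix (Fin n) (Fin n) ℝ) (hL : |L.det| = 1)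
    (hLs : Ls.transpose * L = 1) {ρ : ℝ} (hρ : 0 < ρ)
    (hdual : ∀ y : Fin n → ℤ, y ≠ 0 → ∃ l, cst n / ρ < |app Ls y l|) (z : Fin n → ℝ) :
    ∃ x : Fin n → ℤ, ∀ l, |app L x l - z l| ≤ n * ρ := by
  classical
  have hL0 : L.det ≠ 0 := by intro h; rw [h] at hL; simp at hL
  obtain ⟨G, hG, hmono, hmin⟩ := minima L Ls hLs
  have hup := prod_upper L G hn hL hG hmono hmin
  have hc := cst_pos hn
  have hsmall : ∀ j, ‖app L (G j)‖ ≤ ρ := by
    intro j
    by_contra hcon
    push Not at hcon
    have hy : dual G j ≠ 0 := by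
      intro h0
      have h1 := congrFun (congrFun (Matrix.mul_adjugate G) j) j
      rw [Matrix.mul_apply] at h1
      simp only [Matrix.smul_apply, Matrix.one_apply_eq, smul_eq_mul, mul_one] at h1
      apply hG
      rw [← h1]
      apply Finset.sum_eq_zero
      intro l _
      have : G.adjugate l j = 0 := congrFun h0 l
      rw [this, mul_zero]
    obtain ⟨l, hl⟩ := hdual _ hy
    have h2 := dual_bound L Ls G hL hLs hG hup j l
    have h3 : cst n / ‖app L (G j)‖ ≤ cst n / ρ := by
      apply div_le_div_of_nonneg_left hc.le hρ hcon.le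
    unfold cst at h3 hl
    linarith
  -- rounding
  set M : Matrix (Fin n) (Fin n) ℝ := MM L G with hM
  have hMdet : M.det ≠ 0 := by
    rw [hM, det_MM]
    exact mul_ne_zero (by exact_mod_cast hG) hL0
  set α : Fin n → ℝ := Matrix.vecMul z M⁻¹ with hα
  have hαM : Matrix.vecMul α M = z := by
    rw [hα, Matrix.vecMul_vecMul, Matrix.nonsing_inv_mul M (isUnit_iff_ne_zero.2 hMdet), Matrix.vecMul_one]
  refine ⟨∑ j, round (α j) • G j, fun l => ?_⟩
  have h1 : app L (∑ j, round (α j) • G j) l = ∑ j, (round (α j) : ℝ) * M j l := by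
    rw [map_sum, Finset.sum_apply]
    apply Finset.sum_congr rfl
    intro j _
    rw [map_smul, Pi.smul_apply, zsmul_eq_mul, hM, MM_apply]
  have h2 : z l = ∑ j, α j * M j l := by
    rw [← hαM]
    simp [Matrix.vecMul, dotProduct]
  rw [h1, h2, ← Finset.sum_sub_distrib]
  calc |∑ j, ((round (α j) : ℝ) * M j l - α j * M j l)|
      ≤ ∑ j, |(round (α j) : ℝ) * M j l - α j * M j l| := Finset.abs_sum_le_sum_abs _ _
    _ ≤ ∑ _j : Fin n, ρ := by
        apply Finset.sum_le_sum
        intro j _
        rw [← sub_mul, abs_mul]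
        have e1 : |(round (α j) : ℝ) - α j| ≤ 1 / 2 := by
          rw [abs_sub_comm]
          exact abs_sub_round (α j)
        have e2 : |M j l| ≤ ρ := by
          rw [hM, MM_apply]
          exact (norm_le_pi_norm (app L (G j)) l).trans (hsmall j)
        have e3 := abs_nonneg (M j l)
        nlinarith
    _ = n * ρ := by simp

end Pool.Agent.D0H88.GL
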