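import Mathlib
import Pool.Agent.D0H88.GL.Trans
import Pool.Agent.D0H49.LI.Fin

/-!
# The golden law, covering form: independence implies dense values at many scales
-/

set_option autoImplicit false

namespace Pool.Agent.D0H88.GL

open Real Pool.Agent.D0H49.LI Pool.Agent.H393R2 Pool.Agent.H393R2.Geom

/-- the matrix of the forms -/
noncomputable def LM (θ t h : ℝ) : Matrix (Fin 3) (Fin 3) ℝ :=
  !![h ^ 2, h ^ 2 * θ, h ^ 2 * t; 0, h⁻¹, 0; 0, 0, h⁻¹]

/-- the dual matrix -/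
noncomputable def LD (θ t h : ℝ) : Matrix (Fin 3) (Fin 3) ℝ :=
  !![(h ^ 2)⁻¹, 0, 0; -θ * h, h, 0; -t * h, 0, h]

lemma LM_det {θ t h : ℝ} (hh : h ≠ 0) : (LM θ t h).det = 1 := by
  unfold LM
  rw [Matrix.det_fin_three]
  simp
  field_simp

lemma LD_LM {θ t h : ℝ} (hh : h ≠ 0) : (LD θ t h).transpose * LM θ t h = 1 := by
  unfold LD LM
  ext i j
  fin_cases i <;> fin_cases j <;>
    simp [Matrix.mul_apply, Fin.sum_univ_three, Matrix.transpose_apply] <;> field_simp <;> ring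

lemma app_LM (θ t h : ℝ) (x : Fin 3 → ℤ) :
    app (LM θ t h) x 0 = h ^ 2 * lf θ t (x 0) (x 1) (x 2) ∧ app (LM θ t h) x 1 = h⁻¹ * x 1 ∧
      app (LM θ t h) x 2 = h⁻¹ * x 2 := by
  rw [app_apply]
  unfold LM lf
  refine ⟨?_, ?_, ?_⟩ <;> simp [Matrix.mulVec, dotProduct, Fin.sum_univ_three]
  ring

lemma app_LD (θ t h : ℝ) (y : Fin 3 → ℤ) :
    app (LD θ t h) y 0 = (h ^ 2)⁻¹ * y 0 ∧ app (LD θ t h) y 1 = -(h * (y 0 * θ - y 1)) ∧
      app (LD θ t h) y 2 = -(h * (y 0 * t - y 2)) := by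
  rw [app_apply]
  unfold LD
  refine ⟨?_, ?_, ?_⟩ <;> simp [Matrix.mulVec, dotProduct, Fin.sum_univ_three] <;> ring

/-- **Transference.** -/
theorem transf (θ t : ℝ) {X l : ℝ} (hX : 1 < X) (hl0 : 0 < l)
    (hno : ∀ q p r : ℤ, 1 ≤ q → (q : ℝ) ≤ X → X ^ (-l) < er θ t (q, p, r)) (ξ : ℝ) :
    ∃ a b c : ℤ, |lf θ t a b c - ξ| ≤ 3 * cst 3 / X ∧ |(b : ℝ)| ≤ 3 * cst 3 * X ^ l ∧
      |(c : ℝ)| ≤ 3 * cst 3 * X ^ l := by
  have hX0 : 0 < X := by linarith
  have hK := cst_pos (n := 3) (by norm_num)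
  set h : ℝ := X ^ ((1 + l) / 3) with hh
  have hh0 : 0 < h := by positivity
  set ρ : ℝ := cst 3 * X ^ ((2 * l - 1) / 3) with hρ
  have hρ0 : 0 < ρ := by positivity
  have hquot : cst 3 / ρ = X ^ ((1 - 2 * l) / 3) := by
    rw [hρ, div_mul_eq_div_div, div_self hK.ne', one_div, ← Real.rpow_neg hX0.le]
    congr 1; ring
  have hdual : ∀ y : Fin 3 → ℤ, y ≠ 0 → ∃ k, cst 3 / ρ < |app (LD θ t h) y k| := by
    intro y hy
    obtain ⟨e0, e1, e2⟩ := app_LD θ t h y
    rw [hquot]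
    by_contra hcon
    push Not at hcon
    have f0 := hcon 0
    have f1 := hcon 1
    have f2 := hcon 2
    rw [e0, abs_mul, abs_inv, abs_of_pos (by positivity : 0 < h ^ 2)] at f0
    rw [e1, abs_neg, abs_mul, abs_of_pos hh0] at f1
    rw [e2, abs_neg, abs_mul, abs_of_pos hh0] at f2
    have hh2 : h ^ 2 = X ^ (2 * (1 + l) / 3) := by
      rw [hh, ← Real.rpow_natCast, ← Real.rpow_mul hX0.le]
      congr 1; push_cast; ring
    have g0 : |(y 0 : ℝ)| ≤ X := by
      rw [inv_mul_le_iff₀ (by positivity), hh2, ← Real.rpow_add hX0] at f0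
      have : 2 * (1 + l) / 3 + (1 - 2 * l) / 3 = 1 := by ring
      rw [this, Real.rpow_one] at f0
      exact f0
    have gh : ∀ u : ℝ, h * u ≤ X ^ ((1 - 2 * l) / 3) → u ≤ X ^ (-l) := by
      intro u hu
      have i1 : X ^ ((1 - 2 * l) / 3) = h * X ^ (-l) := by
        rw [hh, ← Real.rpow_add hX0]
        congr 1; ring
      rw [i1] at hu
      exact le_of_mul_le_mul_left hu hh0
    have g1 := gh _ f1
    have g2 := gh _ f2
    have hXl : X ^ (-l) < 1 := Real.rpow_lt_one_of_one_lt_of_neg hX (by linarith)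
    rcases lt_trichotomy (y 0) 0 with h0 | h0 | h0
    · have h3 := hno (-(y 0)) (-(y 1)) (-(y 2)) (by omega) (by
        push_cast
        exact (neg_le_abs _).trans g0)
      unfold er at h3
      simp only [Int.cast_neg] at h3
      have i1 : |-(y 0 : ℝ) * θ - -(y 1 : ℝ)| = |(y 0 : ℝ) * θ - y 1| := by
        rw [← abs_neg]; congr 1; ring
      have i2 : |-(y 0 : ℝ) * t - -(y 2 : ℝ)| = |(y 0 : ℝ) * t - y 2| := by
        rw [← abs_neg]; congr 1; ring
      rw [i1, i2] at h3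
      exact absurd (max_le g1 g2) (not_le.2 h3)
    · rw [h0] at g1 g2
      have z1 : y 1 = 0 := by
        by_contra hne
        have := one_le_abs hne
        have h4 : |((0 : ℤ) : ℝ) * θ - (y 1 : ℝ)| = |(y 1 : ℝ)| := by
          rw [← abs_neg]; congr 1; push_cast; ring
        rw [h4] at g1
        linarith
      have z2 : y 2 = 0 := by
        by_contra hne
        have := one_le_abs hne
        have h4 : |((0 : ℤ) : ℝ) * t - (y 2 : ℝ)| = |(y 2 : ℝ)| := by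
          rw [← abs_neg]; congr 1; push_cast; ring
        rw [h4] at g2
        linarith
      apply hy
      ext k
      fin_cases k
      · exact h0
      · exact z1
      · exact z2
    · have h3 := hno (y 0) (y 1) (y 2) (by omega) ((le_abs_self _).trans g0)
      unfold er at h3
      simp only at h3
      exact absurd (max_le g1 g2) (not_le.2 h3)
  obtain ⟨x, hx⟩ := trans (by norm_num) (LM θ t h) (LD θ t h) (by rw [LM_det hh0.ne']; simp)
    (LD_LM hh0.ne') hρ0 hdual ![h ^ 2 * ξ, 0, 0]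
  obtain ⟨e0, e1, e2⟩ := app_LM θ t h x
  have f0 := hx 0
  have f1 := hx 1
  have f2 := hx 2
  rw [e0] at f0
  rw [e1] at f1
  rw [e2] at f2
  simp only [Matrix.cons_val_zero, Matrix.cons_val_one, Matrix.cons_val, sub_zero] at f0 f1 f2
  have hhi : 0 < h⁻¹ := by positivity
  rw [abs_mul, abs_of_pos hhi, inv_mul_le_iff₀ hh0] at f1 f2
  have hb : h * ((3 : ℕ) * ρ) = 3 * cst 3 * X ^ l := by
    rw [hh, hρ]
    push_cast
    have : X ^ l = X ^ ((1 + l) / 3) * X ^ ((2 * l - 1) / 3) := by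
      rw [← Real.rpow_add hX0]; congr 1; ring
    rw [this]; ring
  refine ⟨x 0, x 1, x 2, ?_, ?_, ?_⟩
  · rw [← mul_sub, abs_mul, abs_of_pos (by positivity : 0 < h ^ 2)] at f0
    have i1 : (3 : ℕ) * ρ = h ^ 2 * (3 * cst 3 / X) := by
      rw [hh, hρ, ← Real.rpow_natCast, ← Real.rpow_mul hX0.le]
      have : X ^ ((2 * l - 1) / 3) = X ^ ((1 + l) / 3 * (2 : ℕ)) * X⁻¹ := by
        rw [← Real.rpow_neg_one, ← Real.rpow_add hX0]; congr 1; push_cast; ring
      rw [this]; push_cast; ring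
    rw [i1] at f0
    exact le_of_mul_le_mul_left f0 (by positivity)
  · rw [← hb]; exact f1
  · rw [← hb]; exact f2

/-- **Covering.** If `1, θ, t` are independent, then at arbitrarily large scales `H` every point of
`[-M, M]` is within `H ^ (-μ)` of a value of height at most `H`, `μ` less than the golden ratio. -/
theorem cover {θ : ℝ} (hθ : Msr θ) (t : ℝ) (hI : Indep θ t) {μ : ℝ} (hμ0 : 0 < μ)
    (hμ : μ ^ 2 < μ + 1) (M H₀ : ℝ) :
    ∃ H : ℝ, H₀ ≤ H ∧ ∀ ξ : ℝ, |ξ| ≤ M → ∃ a b c : ℤ, ht a b c ≤ H ∧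
      |lf θ t a b c - ξ| ≤ H ^ (-μ) := by
  have hK := cst_pos (n := 3) (by norm_num)
  -- choice of `l`
  obtain ⟨l, hl0, hl, hlμ⟩ : ∃ l : ℝ, 0 < l ∧ 1 < l ^ 2 + l ∧ l * μ < 1 := by
    -- `1 / μ` satisfies `1 < (1/μ)^2 + 1/μ`
    have h1 : 1 < (1 / μ) ^ 2 + 1 / μ := by
      rw [div_pow, one_pow, div_add_div _ _ (by positivity) hμ0.ne', lt_div_iff₀ (by positivity)]
      nlinarith
    have hcont : Filter.Tendsto (fun l : ℝ => l ^ 2 + l) (nhdsWithin (1 / μ) (Set.Iio (1 / μ)))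
        (nhds ((1 / μ) ^ 2 + 1 / μ)) := by
      apply tendsto_nhdsWithin_of_tendsto_nhds
      exact (continuous_pow 2).add continuous_id |>.tendsto _
    have h2 := (hcont.eventually (lt_mem_nhds h1))
    have h3 : ∀ᶠ l in nhdsWithin (1 / μ) (Set.Iio (1 / μ)), l < 1 / μ := self_mem_nhdsWithin
    have h4 : ∀ᶠ l in nhdsWithin (1 / μ) (Set.Iio (1 / μ)), 0 < l :=
      nhdsWithin_le_nhds (lt_mem_nhds (by positivity))
    obtain ⟨l, ⟨h5, h6⟩, h7⟩ := ((h2.and h3).and h4).exists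
    refine ⟨l, h7, h5, ?_⟩
    rwa [lt_div_iff₀ hμ0] at h6
  set M' : ℝ := max M 0 with hM'
  have hM'0 : 0 ≤ M' := le_max_right _ _
  set C : ℝ := M' + 3 * cst 3 + 3 * cst 3 * (|θ| + |t|) + 1 with hC
  have hθ0 := abs_nonneg θ
  have ht0 := abs_nonneg t
  have hC1 : 1 ≤ C := by
    have : 0 ≤ 3 * cst 3 * (|θ| + |t|) := by positivity
    rw [hC]; linarith
  have hC0 : 0 < C := by linarith
  -- large `X`
  have hlim1 : Filter.Tendsto (fun X : ℝ => X ^ (1 - l * μ)) Filter.atTop Filter.atTop :=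
    tendsto_rpow_atTop (by linarith)
  have hlim2 : Filter.Tendsto (fun X : ℝ => X ^ l) Filter.atTop Filter.atTop :=
    tendsto_rpow_atTop hl0
  obtain ⟨X₁, hX₁⟩ := Filter.eventually_atTop.1 (((hlim1.eventually
    (Filter.eventually_ge_atTop (3 * cst 3 * C ^ μ))).and (hlim2.eventually
    (Filter.eventually_ge_atTop H₀))).and (Filter.eventually_gt_atTop 1))
  obtain ⟨X, hX, hno⟩ := golden hθ t hI hl0 hl X₁
  obtain ⟨⟨hX2, hX3⟩, hX1⟩ := hX₁ X hX
  have hX0 : 0 < X := by linarith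
  have hXl1 : 1 ≤ X ^ l := Real.one_le_rpow hX1.le hl0.le
  refine ⟨C * X ^ l, ?_, fun ξ hξ => ?_⟩
  · have : X ^ l ≤ C * X ^ l := le_mul_of_one_le_left (by positivity) hC1
    linarith
  · obtain ⟨a, b, c, h1, h2, h3⟩ := transf θ t hX1 hl0 hno ξ
    have hval : 3 * cst 3 / X ≤ (C * X ^ l) ^ (-μ) := by
      rw [Real.mul_rpow hC0.le (by positivity), ← Real.rpow_mul hX0.le, Real.rpow_neg hC0.le,
        div_le_iff₀ hX0, mul_assoc]
      have e1 : X ^ (l * -μ) * X = X ^ (1 - l * μ) := by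
        rw [show (1 : ℝ) - l * μ = l * -μ + 1 by ring, Real.rpow_add hX0, Real.rpow_one]
      rw [e1, ← div_eq_inv_mul, le_div_iff₀ (by positivity)]
      exact hX2
    refine ⟨a, b, c, ?_, h1.trans hval⟩
    have hξM : |ξ| ≤ M' := hξ.trans (le_max_left _ _)
    have hsmall : 3 * cst 3 / X ≤ 3 * cst 3 := by
      rw [div_le_iff₀ hX0]
      nlinarith
    have ha : |(a : ℝ)| ≤ C * X ^ l := by
      have e1 : (a : ℝ) = (lf θ t a b c - ξ) + ξ - b * θ - c * t := by unfold lf; ring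
      have e2 : |(a : ℝ)| ≤ |lf θ t a b c - ξ| + |ξ| + |(b : ℝ) * θ| + |(c : ℝ) * t| := by
        rw [e1]
        have i1 := abs_sub ((lf θ t a b c - ξ) + ξ - b * θ) ((c : ℝ) * t)
        have i2 := abs_sub ((lf θ t a b c - ξ) + ξ) ((b : ℝ) * θ)
        have i3 := abs_add_le (lf θ t a b c - ξ) ξ
        have i4 : (lf θ t a b c - ξ) + ξ - ↑b * θ - ↑c * t = (a : ℝ) := by unfold lf; ring
        rw [← e1]
        rw [i4] at i1
        linarith
      rw [abs_mul, abs_mul] at e2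
      have e3 : |(b : ℝ)| * |θ| ≤ 3 * cst 3 * X ^ l * |θ| := by gcongr
      have e4 : |(c : ℝ)| * |t| ≤ 3 * cst 3 * X ^ l * |t| := by gcongr
      have e5 : C * X ^ l = M' * X ^ l + 3 * cst 3 * X ^ l + 3 * cst 3 * X ^ l * |θ| +
          3 * cst 3 * X ^ l * |t| + X ^ l := by rw [hC]; ring
      rw [e5]
      have e6 : M' ≤ M' * X ^ l := le_mul_of_one_le_right hM'0 hXl1
      have e7 : 3 * cst 3 ≤ 3 * cst 3 * X ^ l := le_mul_of_one_le_right (by positivity) hXl1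
      linarith
    have hbc : 3 * cst 3 * X ^ l ≤ C * X ^ l := by
      have : 3 * cst 3 ≤ C := by
        have : 0 ≤ 3 * cst 3 * (|θ| + |t|) := by positivity
        rw [hC]; linarith
      gcongr
    unfold ht
    exact max_le ha (max_le (h2.trans hbc) (h3.trans hbc))

end Pool.Agent.D0H88.GL
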