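import Mathlib
import Pool.Agent.D0H88.GL.Cover

/-!
# The dependent case: few values
-/

set_option autoImplicit false

namespace Pool.Agent.D0H88.GL

open Real Pool.Agent.D0H49.LI MeasureTheory

/-- In the dependent case the values of height at most `H` are few. -/
theorem dep_set {θ : ℝ} (hθ : Msr θ) (t : ℝ) (hD : ¬ Indep θ t) (M : ℝ) :
    ∃ C : ℝ, 0 < C ∧ ∀ H r : ℝ, 1 ≤ H → 0 < r → r ≤ 1 →
      volume {ξ : ℝ | |ξ| ≤ M ∧ ∃ a b c : ℤ, ht a b c ≤ H ∧ |lf θ t a b c - ξ| ≤ r} ≤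
        ENNReal.ofReal (C * H * r) := by
  unfold Indep at hD
  push Not at hD
  obtain ⟨a, b, c, h0, hne⟩ := hD
  have hne' : ¬ (a = 0 ∧ b = 0 ∧ c = 0) := fun h => hne h.1 h.2.1 h.2.2
  have hc : c ≠ 0 := by
    intro hc
    have h1 : (a : ℝ) + b * θ = 0 := by
      unfold lf at h0
      rw [hc] at h0
      push_cast at h0
      linarith
    obtain ⟨h2, h3⟩ := msr_ne hθ h1
    exact hne h2 h3 hc
  have hcr : (c : ℝ) ≠ 0 := by exact_mod_cast hc
  have hcabs := one_le_abs hc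
  set K := ht a b c with hK
  have hK1 : 1 ≤ K := one_le_ht hne'
  set R : ℝ := |(c : ℝ)| * (|M| + 1) with hR
  have hR0 : 0 ≤ R := by positivity
  set J : ℕ := ⌈R + 1⌉₊ with hJ
  refine ⟨(4 * K + 3) * (2 * J + 1) * 2, by positivity, fun H r hH hr hr1 => ?_⟩
  set N : ℕ := ⌈2 * K * H⌉₊ with hN
  have hNle : (N : ℝ) ≤ 2 * K * H + 1 := (Nat.ceil_lt_add_one (by positivity)).le
  have hsub : {ξ : ℝ | |ξ| ≤ M ∧ ∃ a b c : ℤ, ht a b c ≤ H ∧ |lf θ t a b c - ξ| ≤ r} ⊆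
      ⋃ n ∈ Finset.Icc (-(N : ℤ)) N, ⋃ j ∈ Finset.Icc (-(J : ℤ)) J,
        Metric.closedBall (((⌊-(n : ℝ) * θ⌋ : ℝ) + j + n * θ) / c) r := by
    rintro ξ ⟨hξ, a', b', c', h1, h2⟩
    set m : ℤ := c * a' - c' * a with hm
    set n : ℤ := c * b' - c' * b with hn
    have hval : lf θ t a' b' c' = (m + n * θ) / c := by
      rw [eq_div_iff hcr, hm, hn]
      unfold lf at h0 ⊢
      push_cast
      linear_combination (c' : ℝ) * h0
    have hnb : |(n : ℝ)| ≤ 2 * K * H := by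
      rw [hn]
      push_cast
      have e1 := abs_sub ((c : ℝ) * b') (c' * b)
      rw [abs_mul, abs_mul] at e1
      have e2 : |(c : ℝ)| * |(b' : ℝ)| ≤ K * H :=
        mul_le_mul (le_ht_c a b c) ((le_ht_b a' b' c').trans h1) (abs_nonneg _) (by linarith)
      have e3 : |(c' : ℝ)| * |(b : ℝ)| ≤ H * K :=
        mul_le_mul ((le_ht_c a' b' c').trans h1) (le_ht_b a b c) (abs_nonneg _) (by linarith)
      linarith
    have hnN : n ∈ Finset.Icc (-(N : ℤ)) N := by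
      rw [Finset.mem_Icc]
      have e1 : |(n : ℝ)| ≤ N := hnb.trans (Nat.le_ceil _)
      have e2 := abs_le.1 e1
      constructor
      · have : ((-(N : ℤ) : ℤ) : ℝ) ≤ n := by push_cast; exact e2.1
        exact_mod_cast this
      · have : (n : ℝ) ≤ ((N : ℤ) : ℝ) := by push_cast; exact e2.2
        exact_mod_cast this
    set j : ℤ := m - ⌊-(n : ℝ) * θ⌋ with hj
    have hjb : |(j : ℝ)| ≤ R + 1 := by
      have e1 : |lf θ t a' b' c'| ≤ |M| + 1 := by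
        have e2 : |lf θ t a' b' c'| ≤ |lf θ t a' b' c' - ξ| + |ξ| := by
          have := abs_add_le (lf θ t a' b' c' - ξ) ξ
          simpa using this
        have e3 : |ξ| ≤ |M| := hξ.trans (le_abs_self M)
        linarith
      have e4 : |(m : ℝ) + n * θ| ≤ R := by
        have e5 : (m : ℝ) + n * θ = c * lf θ t a' b' c' := by
          rw [hval]; field_simp
        rw [e5, abs_mul, hR]
        gcongr
      have e6 : (j : ℝ) = ((m : ℝ) + n * θ) + Int.fract (-(n : ℝ) * θ) := by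
        rw [hj]
        unfold Int.fract
        push_cast
        ring
      rw [e6]
      have e7 := abs_add_le ((m : ℝ) + n * θ) (Int.fract (-(n : ℝ) * θ))
      have e8 : |Int.fract (-(n : ℝ) * θ)| ≤ 1 := by
        rw [abs_of_nonneg (Int.fract_nonneg _)]
        exact (Int.fract_lt_one _).le
      linarith
    have hjJ : j ∈ Finset.Icc (-(J : ℤ)) J := by
      rw [Finset.mem_Icc]
      have e1 : |(j : ℝ)| ≤ J := hjb.trans (Nat.le_ceil _)
      have e2 := abs_le.1 e1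
      constructor
      · have : ((-(J : ℤ) : ℤ) : ℝ) ≤ j := by push_cast; exact e2.1
        exact_mod_cast this
      · have : (j : ℝ) ≤ ((J : ℤ) : ℝ) := by push_cast; exact e2.2
        exact_mod_cast this
    refine Set.mem_biUnion hnN (Set.mem_biUnion hjJ ?_)
    rw [Metric.mem_closedBall, dist_comm, Real.dist_eq]
    have e1 : ((⌊-(n : ℝ) * θ⌋ : ℝ) + j + n * θ) / c = lf θ t a' b' c' := by
      rw [hval, hj]; push_cast; ring
    rw [e1]
    exact h2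
  refine (measure_mono hsub).trans ?_
  refine (measure_biUnion_finset_le _ _).trans ?_
  have hin : ∀ n ∈ Finset.Icc (-(N : ℤ)) N,
      volume (⋃ j ∈ Finset.Icc (-(J : ℤ)) J,
        Metric.closedBall (((⌊-(n : ℝ) * θ⌋ : ℝ) + j + n * θ) / c) r) ≤
      ENNReal.ofReal ((2 * J + 1) * (2 * r)) := by
    intro n _
    refine (measure_biUnion_finset_le _ _).trans ?_
    simp only [Real.volume_closedBall]
    rw [Finset.sum_const, Int.card_Icc, nsmul_eq_mul]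
    have e1 : ((J : ℤ) + 1 - -(J : ℤ)).toNat = 2 * J + 1 := by omega
    rw [e1, ← ENNReal.ofReal_natCast, ← ENNReal.ofReal_mul (by positivity)]
    apply ENNReal.ofReal_le_ofReal
    push_cast
    exact le_rfl
  refine (Finset.sum_le_sum hin).trans ?_
  rw [Finset.sum_const, Int.card_Icc, nsmul_eq_mul]
  have e1 : ((N : ℤ) + 1 - -(N : ℤ)).toNat = 2 * N + 1 := by omega
  rw [e1, ← ENNReal.ofReal_natCast, ← ENNReal.ofReal_mul (by positivity)]
  apply ENNReal.ofReal_le_ofReal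
  push_cast
  have e2 : (2 * (N : ℝ) + 1) ≤ (4 * K + 3) * H := by nlinarith
  calc (2 * (N : ℝ) + 1) * ((2 * J + 1) * (2 * r)) ≤ ((4 * K + 3) * H) * ((2 * J + 1) * (2 * r)) := by
        gcongr
    _ = _ := by ring

/-- finitely many vectors of bounded height -/
lemma fin_ht (B : ℝ) : {x : ℤ × ℤ × ℤ | ht x.1 x.2.1 x.2.2 ≤ B}.Finite := by
  obtain ⟨n, hn⟩ := exists_nat_ge B
  refine ((Set.finite_Icc (-(n : ℤ)) n).prod ((Set.finite_Icc (-(n : ℤ)) n).prod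
    (Set.finite_Icc (-(n : ℤ)) n))).subset ?_
  rintro ⟨a, b, c⟩ h
  simp only [Set.mem_setOf_eq] at h
  have key : ∀ z : ℤ, |(z : ℝ)| ≤ B → z ∈ Set.Icc (-(n : ℤ)) n := by
    intro z hz
    have h1 := abs_le.1 (hz.trans hn)
    constructor
    · have : ((-(n : ℤ) : ℤ) : ℝ) ≤ z := by push_cast; exact h1.1
      exact_mod_cast this
    · have : (z : ℝ) ≤ ((n : ℤ) : ℝ) := by push_cast; exact h1.2
      exact_mod_cast this
  exact ⟨key a ((le_ht_a a b c).trans h), key b ((le_ht_b a b c).trans h),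
    key c ((le_ht_c a b c).trans h)⟩

/-- the set of the near values -/
def NV (θ t μ ξ : ℝ) : Set (ℤ × ℤ × ℤ) :=
  {x | |lf θ t x.1 x.2.1 x.2.2 - ξ| ≤ ht x.1 x.2.1 x.2.2 ^ (-μ)}

/-- **Dependent case, metric statement.** -/
theorem dep_null {θ : ℝ} (hθ : Msr θ) (t : ℝ) (hD : ¬ Indep θ t) {μ : ℝ} (hμ : 1 < μ) :
    volume {ξ : ℝ | (NV θ t μ ξ).Infinite} = 0 := by
  have hcov : {ξ : ℝ | (NV θ t μ ξ).Infinite} ⊆ ⋃ M : ℕ, {ξ : ℝ | |ξ| ≤ M ∧ (NV θ t μ ξ).Infinite} := by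
    intro ξ hξ
    obtain ⟨M, hM⟩ := exists_nat_ge |ξ|
    exact Set.mem_iUnion.2 ⟨M, hM, hξ⟩
  refine measure_mono_null hcov (measure_iUnion_null fun M => ?_)
  obtain ⟨C, hC, hdep⟩ := dep_set hθ t hD M
  set E : ℕ → Set ℝ := fun k => {ξ : ℝ | |ξ| ≤ M ∧ ∃ a b c : ℤ, ht a b c ≤ 2 ^ (k + 1) ∧
    |lf θ t a b c - ξ| ≤ ((2 : ℝ) ^ k) ^ (-μ)} with hE
  have hEv : ∀ k, volume (E k) ≤ ENNReal.ofReal (C * 2 * ((2 : ℝ) ^ (1 - μ)) ^ k) := by
    intro k
    have h1 : ((2 : ℝ) ^ k) ^ (-μ) ≤ 1 :=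
      Real.rpow_le_one_of_one_le_of_nonpos (one_le_pow₀ (by norm_num)) (by linarith)
    refine (hdep (2 ^ (k + 1)) (((2 : ℝ) ^ k) ^ (-μ)) (one_le_pow₀ (by norm_num)) (by positivity) h1).trans ?_
    apply ENNReal.ofReal_le_ofReal
    apply le_of_eq
    rw [← Real.rpow_natCast (2 : ℝ) k, ← Real.rpow_natCast ((2 : ℝ) ^ (1 - μ)) k, ← Real.rpow_mul (by norm_num),
      ← Real.rpow_mul (by norm_num), ← Real.rpow_natCast (2 : ℝ) (k + 1)]
    push_cast
    rw [show (1 - μ) * (k : ℝ) = (k : ℝ) + (k : ℝ) * -μ by ring, Real.rpow_add (by norm_num),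
      Real.rpow_add (by norm_num), Real.rpow_one]
    ring
  have hsum : ∑' k, volume (E k) ≠ ⊤ := by
    have h1 : Summable fun k : ℕ => C * 2 * ((2 : ℝ) ^ (1 - μ)) ^ k := by
      apply Summable.mul_left
      apply summable_geometric_of_lt_one (by positivity)
      exact Real.rpow_lt_one_of_one_lt_of_neg (by norm_num) (by linarith)
    refine ne_top_of_le_ne_top ?_ (ENNReal.tsum_le_tsum hEv)
    rw [← ENNReal.ofReal_tsum_of_nonneg (fun k => by positivity) h1]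
    exact ENNReal.ofReal_ne_top
  refine measure_mono_null ?_ (measure_limsup_atTop_eq_zero hsum)
  rintro ξ ⟨hξ, hinf⟩
  rw [Filter.mem_limsup_iff_frequently_mem, Filter.frequently_atTop]
  intro K
  -- a near value of large height
  have h1 : ¬ (NV θ t μ ξ ⊆ {x : ℤ × ℤ × ℤ | ht x.1 x.2.1 x.2.2 ≤ 2 ^ K}) :=
    fun h => hinf ((fin_ht _).subset h)
  rw [Set.not_subset] at h1
  obtain ⟨x, hx, hxK⟩ := h1
  simp only [Set.mem_setOf_eq, not_le] at hxK
  have hht1 : 1 < ht x.1 x.2.1 x.2.2 := lt_of_le_of_lt (one_le_pow₀ (by norm_num)) hxK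
  obtain ⟨k, hk1, hk2⟩ := exists_nat_pow_near hht1.le (by norm_num : (1 : ℝ) < 2)
  have hKk : K ≤ k := by
    have h2 : (2 : ℝ) ^ K < 2 ^ (k + 1) := hxK.trans hk2
    have h3 := (pow_lt_pow_iff_right₀ (by norm_num : (1 : ℝ) < 2)).1 h2
    omega
  refine ⟨k, hKk, hξ, x.1, x.2.1, x.2.2, hk2.le, ?_⟩
  refine hx.trans ?_
  exact Real.rpow_le_rpow_of_nonpos (by positivity) hk1 (by linarith)

/-- **Dependent case, no covering.** -/
theorem dep_no_cover {θ : ℝ} (hθ : Msr θ) (t : ℝ) (hD : ¬ Indep θ t) {μ : ℝ} (hμ : 1 < μ) :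
    ∃ H₀ : ℝ, ∀ H : ℝ, H₀ ≤ H → ¬ ∀ ξ : ℝ, 0 ≤ ξ → ξ ≤ 1 → ∃ a b c : ℤ, ht a b c ≤ H ∧
      |lf θ t a b c - ξ| ≤ H ^ (-μ) := by
  obtain ⟨C, hC, hdep⟩ := dep_set hθ t hD 1
  have hlim : Filter.Tendsto (fun H : ℝ => C * H ^ (-(μ - 1))) Filter.atTop (nhds 0) := by
    have := (tendsto_rpow_neg_atTop (y := μ - 1) (by linarith)).const_mul C
    rwa [mul_zero] at this
  obtain ⟨H₀, hH₀⟩ := Filter.eventually_atTop.1 ((hlim.eventually (gt_mem_nhds (one_pos : (0 : ℝ) < 1))).and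
    (Filter.eventually_ge_atTop 1))
  refine ⟨H₀, fun H hH hcov => ?_⟩
  obtain ⟨h1, h2⟩ := hH₀ H hH
  have hH0 : 0 < H := by linarith
  have h3 : Set.Icc (0 : ℝ) 1 ⊆ {ξ : ℝ | |ξ| ≤ 1 ∧ ∃ a b c : ℤ, ht a b c ≤ H ∧
      |lf θ t a b c - ξ| ≤ H ^ (-μ)} := by
    intro ξ hξ
    refine ⟨?_, hcov ξ hξ.1 hξ.2⟩
    rw [abs_of_nonneg hξ.1]
    exact hξ.2
  have h4 := (measure_mono h3).trans (hdep H (H ^ (-μ)) h2 (by positivity)
    (Real.rpow_le_one_of_one_le_of_nonpos h2 (by linarith)))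
  rw [Real.volume_Icc, sub_zero, ENNReal.ofReal_le_ofReal_iff (by positivity)] at h4
  have h5 : C * H * H ^ (-μ) = C * H ^ (-(μ - 1)) := by
    rw [show -(μ - 1) = 1 + -μ by ring, Real.rpow_add hH0, Real.rpow_one]; ring
  rw [h5] at h4
  linarith

end Pool.Agent.D0H88.GL
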