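import Mathlib
import Pool.Agent.D0H88.GL.Dep

/-!
# The independent case: every real number is a limit of near values; the equivalences
-/

set_option autoImplicit false

namespace Pool.Agent.D0H88.GL

open Real Pool.Agent.D0H49.LI MeasureTheory

lemma ht_add (a b c a' b' c' : ℤ) : ht (a + a') (b + b') (c + c') ≤ ht a b c + ht a' b' c' := by
  have key : ∀ {u v U V : ℝ}, |u| ≤ U → |v| ≤ V → |u + v| ≤ U + V :=
    fun h1 h2 => (abs_add_le _ _).trans (add_le_add h1 h2)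
  unfold ht
  push_cast
  refine max_le (key (le_ht_a a b c) (le_ht_a a' b' c')) (max_le
    (key (le_ht_b a b c) (le_ht_b a' b' c')) (key (le_ht_c a b c) (le_ht_c a' b' c')))

lemma ht_zero_iff {a b c : ℤ} (h : ht a b c < 1) : a = 0 ∧ b = 0 ∧ c = 0 := by
  by_contra hne
  have := one_le_ht hne
  linarith

/-- **Independent case.** Every real number has infinitely many near values. -/
theorem ind_inf {θ : ℝ} (hθ : Msr θ) (t : ℝ) (hI : Indep θ t) {μ : ℝ} (hμ0 : 0 < μ)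
    (hμ : μ ^ 2 < μ + 1) (ξ : ℝ) : (NV θ t μ ξ).Infinite := by
  have hμ17 : μ < 17 / 10 := by nlinarith
  by_cases hval : ∃ v : ℤ × ℤ × ℤ, lf θ t v.1 v.2.1 v.2.2 = ξ
  · obtain ⟨v, hv⟩ := hval
    have hS := (crit_inf hθ t (ε := 9 / 10) (by norm_num) (by norm_num)).1 hI
    -- large heights
    have hlim : Filter.Tendsto (fun X : ℝ => X ^ ((19 : ℝ) / 10 - μ)) Filter.atTop Filter.atTop :=
      tendsto_rpow_atTop (by linarith)
    obtain ⟨B, hB⟩ := Filter.eventually_atTop.1 ((hlim.eventually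
      (Filter.eventually_ge_atTop ((2 : ℝ) ^ μ))).and (Filter.eventually_ge_atTop 1))
    set B' : ℝ := max B (ht v.1 v.2.1 v.2.2) with hB'
    have hS' := hS.diff (fin_ht B')
    have hinj : Function.Injective (fun x : ℤ × ℤ × ℤ => x + v) := fun x y h => add_right_cancel h
    refine (hS'.image hinj.injOn).mono ?_
    rintro _ ⟨x, ⟨⟨hx0, hx1⟩, hx2⟩, rfl⟩
    simp only [Set.mem_setOf_eq, not_le] at hx2
    have hxB : B ≤ ht x.1 x.2.1 x.2.2 := (le_max_left _ _).trans hx2.le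
    have hxv : ht v.1 v.2.1 v.2.2 < ht x.1 x.2.1 x.2.2 := (le_max_right _ _).trans_lt hx2
    obtain ⟨h1, h2⟩ := hB _ hxB
    have hX0 : 0 < ht x.1 x.2.1 x.2.2 := by linarith
    show |lf θ t (x + v).1 (x + v).2.1 (x + v).2.2 - ξ| ≤ ht (x + v).1 (x + v).2.1 (x + v).2.2 ^ (-μ)
    have e1 : lf θ t (x + v).1 (x + v).2.1 (x + v).2.2 - ξ = lf θ t x.1 x.2.1 x.2.2 := by
      rw [← hv]
      unfold lf
      simp only [Prod.fst_add, Prod.snd_add]
      push_cast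
      ring
    rw [e1]
    refine hx1.trans ?_
    have h3 : ht (x + v).1 (x + v).2.1 (x + v).2.2 ≤ 2 * ht x.1 x.2.1 x.2.2 := by
      have := ht_add x.1 x.2.1 x.2.2 v.1 v.2.1 v.2.2
      simp only [Prod.fst_add, Prod.snd_add]
      linarith
    have h4 : 0 < ht (x + v).1 (x + v).2.1 (x + v).2.2 := by
      by_contra hcon
      obtain ⟨z1, z2, z3⟩ := ht_zero_iff (a := (x + v).1) (b := (x + v).2.1) (c := (x + v).2.2)
        (by linarith)
      simp only [Prod.fst_add, Prod.snd_add] at z1 z2 z3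
      have w1 : (x.1 : ℝ) = -(v.1 : ℝ) := by
        have : x.1 = -v.1 := by omega
        rw [this]; push_cast; ring
      have w2 : (x.2.1 : ℝ) = -(v.2.1 : ℝ) := by
        have : x.2.1 = -v.2.1 := by omega
        rw [this]; push_cast; ring
      have w3 : (x.2.2 : ℝ) = -(v.2.2 : ℝ) := by
        have : x.2.2 = -v.2.2 := by omega
        rw [this]; push_cast; ring
      have : ht x.1 x.2.1 x.2.2 = ht v.1 v.2.1 v.2.2 := by
        unfold ht
        rw [w1, w2, w3, abs_neg, abs_neg, abs_neg]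
      linarith
    refine le_trans ?_ (Real.rpow_le_rpow_of_nonpos h4 h3 (by linarith : -μ ≤ 0))
    rw [Real.mul_rpow (by norm_num) hX0.le, Real.rpow_neg (by norm_num : (0 : ℝ) ≤ 2),
      ← div_eq_inv_mul, le_div_iff₀ (by positivity)]
    have e2 : ht x.1 x.2.1 x.2.2 ^ (-μ) = ht x.1 x.2.1 x.2.2 ^ (-(1 + (9 : ℝ) / 10)) *
        ht x.1 x.2.1 x.2.2 ^ ((19 : ℝ) / 10 - μ) := by
      rw [← Real.rpow_add hX0]; congr 1; ring
    rw [e2]
    gcongr
  · push Not at hval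
    by_contra hfin
    rw [Set.not_infinite] at hfin
    have hξ0 : ξ ≠ 0 := by
      intro h
      apply hval (0, 0, 0)
      rw [h]
      unfold lf
      simp
    obtain ⟨δ, hδ, hδl⟩ : ∃ δ : ℝ, 0 < δ ∧ ∀ x ∈ NV θ t μ ξ, δ ≤ |lf θ t x.1 x.2.1 x.2.2 - ξ| := by
      rcases Set.eq_empty_or_nonempty (NV θ t μ ξ) with h | h
      · exact ⟨1, one_pos, fun x hx => by rw [h] at hx; exact absurd hx (Set.notMem_empty x)⟩
      · obtain ⟨y, hy, hmin⟩ := Set.exists_min_image _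
          (fun x : ℤ × ℤ × ℤ => |lf θ t x.1 x.2.1 x.2.2 - ξ|) hfin h
        exact ⟨_, abs_pos.2 (sub_ne_zero.2 (hval y)), hmin⟩
    have hlim : Filter.Tendsto (fun H : ℝ => H ^ (-μ)) Filter.atTop (nhds 0) :=
      tendsto_rpow_neg_atTop hμ0
    obtain ⟨H₀, hH₀⟩ := Filter.eventually_atTop.1 ((hlim.eventually
      (gt_mem_nhds (show (0 : ℝ) < min δ |ξ| from lt_min hδ (abs_pos.2 hξ0)))).and
      (Filter.eventually_ge_atTop 1))
    obtain ⟨H, hH, hcov⟩ := cover hθ t hI hμ0 hμ |ξ| H₀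
    obtain ⟨h1, h2⟩ := hH₀ H hH
    obtain ⟨a, b, c, h3, h4⟩ := hcov ξ le_rfl
    have h5 : |lf θ t a b c - ξ| < δ := h4.trans_lt (h1.trans_le (min_le_left _ _))
    have h6 : |lf θ t a b c - ξ| < |ξ| := h4.trans_lt (h1.trans_le (min_le_right _ _))
    have hne : ¬ (a = 0 ∧ b = 0 ∧ c = 0) := by
      rintro ⟨rfl, rfl, rfl⟩
      have : lf θ t 0 0 0 = 0 := by unfold lf; simp
      rw [this, zero_sub, abs_neg] at h6
      exact lt_irrefl _ h6
    have h7 := one_le_ht hne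
    have h8 : (a, b, c) ∈ NV θ t μ ξ :=
      h4.trans (Real.rpow_le_rpow_of_nonpos (by linarith) h3 (by linarith))
    have h9 := hδl _ h8
    simp only at h9
    linarith

/-- **The golden law.** -/
theorem law {θ : ℝ} (hθ : Msr θ) (t : ℝ) {μ l w : ℝ} (hμ : 1 < μ) (hμ' : μ < (1 + √5) / 2)
    (hl : (√5 - 1) / 2 < l) (hl' : l < 1) (hw : (3 + √5) / 2 < w) :
    List.TFAE [
      LinearIndependent ℚ ![(1 : ℝ), θ, t],
      ∀ H₀ : ℝ, ∃ H : ℝ, H₀ ≤ H ∧ ∀ ξ : ℝ, 0 ≤ ξ → ξ ≤ 1 → ∃ a b c : ℤ, ht a b c ≤ H ∧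
        |lf θ t a b c - ξ| ≤ H ^ (-μ),
      ∀ ξ : ℝ, (NV θ t μ ξ).Infinite,
      0 < volume {ξ : ℝ | (NV θ t μ ξ).Infinite},
      ∀ X₀ : ℝ, ∃ X : ℝ, X₀ ≤ X ∧ ∀ q p r : ℤ, 1 ≤ q → (q : ℝ) ≤ X →
        X ^ (-l) < er θ t (q, p, r),
      ∀ H₀ : ℝ, ∃ H : ℝ, H₀ ≤ H ∧ ∀ a b c : ℤ, ¬ (a = 0 ∧ b = 0 ∧ c = 0) →
        ht a b c ≤ H → H ^ (-w) < |lf θ t a b c|] := by
  have h5 : (√5) ^ 2 = 5 := Real.sq_sqrt (by norm_num)
  have h50 : 0 ≤ √5 := Real.sqrt_nonneg _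
  have hμ2 : μ ^ 2 < μ + 1 := by nlinarith
  rw [indep_iff]
  tfae_have 1 → 2 := by
    intro hI H₀
    obtain ⟨H, hH, h⟩ := cover hθ t hI (by linarith) hμ2 1 H₀
    exact ⟨H, hH, fun ξ h0 h1 => h ξ (by rwa [abs_of_nonneg h0])⟩
  tfae_have 2 → 1 := by
    intro h
    by_contra hD
    obtain ⟨H₀, hH₀⟩ := dep_no_cover hθ t hD hμ
    obtain ⟨H, hH, h1⟩ := h H₀
    exact hH₀ H hH h1
  tfae_have 1 → 3 := fun hI ξ => ind_inf hθ t hI (by linarith) hμ2 ξ
  tfae_have 3 → 4 := by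
    intro h
    have : {ξ : ℝ | (NV θ t μ ξ).Infinite} = Set.univ := by
      ext ξ
      simp [h ξ]
    rw [this]
    simp
  tfae_have 4 → 1 := by
    intro h
    by_contra hD
    rw [dep_null hθ t hD hμ] at h
    exact lt_irrefl _ h
  tfae_have 1 ↔ 5 := crit_sim hθ t hl hl'
  tfae_have 1 ↔ 6 := crit_lin hθ t hw
  tfae_finish

end Pool.Agent.D0H88.GL
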